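import Pool.Agent.Q289.CC.Exist

/-!
# The labeled coupon collector: larger samples (up to half of the coupons) recover earlier

`C` is a finite set of coupons, `L` the set of labels, `σ : C ≃ L` the hidden matching. In the
`K`-model the samples are independent, and each of them is a uniform set of coupons whose size has
the law `K` (`Sampling P K S`). `recTime σ S` is the first time at which every coupon has been
sampled and `σ` is the only bijection which maps every sample to the set of its labels.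

The theorem: if `1 ≤ k₁ < k₂ ≤ n / 2` and `K` is supported on `{k₁, k₂}`, then
`E T_{k₂} ≤ E T_K ≤ E T_{k₁}`. More generally, if `K` and `K'` are supported on `[0, n / 2]` and
`K'` stochastically dominates `K`, then `E T_{K'} ≤ E T_K`. Samplings exist for every `K` on
`[0, n]`.

Definitions: `Pool.Agent.Q289.CC.Model` (`Consistent`, `Recovered`, `recTime`, `Sampling`).
-/

set_option autoImplicit false

namespace Pool.Agent.Results.MP_c9564b_pr.SizeMonotone

open MeasureTheory Pool.Agent.Q289.CC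
open scoped ENNReal

theorem result {C L : Type} [Fintype C] [DecidableEq C] [DecidableEq L] (σ : C ≃ L) :
    (∀ k₁ k₂ : ℕ, 1 ≤ k₁ → k₁ < k₂ → 2 * k₂ ≤ Fintype.card C →
      ∀ K : PMF ℕ, K k₁ + K k₂ = 1 →
      ∀ (Ω Ω₁ Ω₂ : Type) [MeasurableSpace Ω] [MeasurableSpace Ω₁] [MeasurableSpace Ω₂]
        (P : Measure Ω) (P₁ : Measure Ω₁) (P₂ : Measure Ω₂) [IsProbabilityMeasure P]
        [IsProbabilityMeasure P₁] [IsProbabilityMeasure P₂] (S : ℕ → Ω → Finset C)
        (S₁ : ℕ → Ω₁ → Finset C) (S₂ : ℕ → Ω₂ → Finset C), Sampling P K S →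
        Sampling P₁ (PMF.pure k₁) S₁ → Sampling P₂ (PMF.pure k₂) S₂ →
        ∫⁻ ω, recTime σ (fun i => S₂ i ω) ∂P₂ ≤ ∫⁻ ω, recTime σ (fun i => S i ω) ∂P ∧
        ∫⁻ ω, recTime σ (fun i => S i ω) ∂P ≤ ∫⁻ ω, recTime σ (fun i => S₁ i ω) ∂P₁) ∧
    (∀ K K' : PMF ℕ, (∀ k, Fintype.card C < 2 * k → K k = 0) →
      (∀ k, Fintype.card C < 2 * k → K' k = 0) →
      (∀ j, ∑ k ∈ Finset.Ico j (Fintype.card C / 2 + 1), K k ≤
        ∑ k ∈ Finset.Ico j (Fintype.card C / 2 + 1), K' k) →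
      ∀ (Ω Ω' : Type) [MeasurableSpace Ω] [MeasurableSpace Ω'] (P : Measure Ω) (P' : Measure Ω')
        [IsProbabilityMeasure P] [IsProbabilityMeasure P'] (S : ℕ → Ω → Finset C)
        (S' : ℕ → Ω' → Finset C), Sampling P K S → Sampling P' K' S' →
        ∫⁻ ω, recTime σ (fun i => S' i ω) ∂P' ≤ ∫⁻ ω, recTime σ (fun i => S i ω) ∂P) ∧
    (∀ K : PMF ℕ, (∀ k, Fintype.card C < k → K k = 0) →
      ∃ (Ω : Type) (_ : MeasurableSpace Ω) (P : Measure Ω) (_ : IsProbabilityMeasure P)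
        (S : ℕ → Ω → Finset C), Sampling P K S) := by
  refine ⟨?_, ?_, exists_sampling⟩
  · intro k₁ k₂ _ h12 h2 K hK Ω Ω₁ Ω₂ _ _ _ P P₁ P₂ _ _ _ S S₁ S₂ hS hS₁ hS₂
    exact two_point σ h12 h2 hK hS hS₁ hS₂
  · intro K K' hK hK' h Ω Ω' _ _ P P' _ _ S S' hS hS'
    exact ET_le hS hS' σ hK hK' h

end Pool.Agent.Results.MP_c9564b_pr.SizeMonotone
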